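import Pool.Agent.Run7.h275.S.I0

/-!
# Piece DVV: a discrete valuation ring as a valuation subring
-/

set_option autoImplicit false

namespace Run7.h410.SC

open Pool.Agent.W418.LU2 Pool.Agent.Run7.h275.RB Pool.Agent.Run7.h275.SC

theorem dvv (R : Type) [CommRing R] [IsDomain R] [IsDiscreteValuationRing R] :
  ∃ V : ValuationSubring (FractionRing R), (∀ r : R, algebraMap R (FractionRing R) r ∈ V) ∧
    (∀ x ∈ V, ∃ r : R, algebraMap R (FractionRing R) r = x) ∧
    (∀ (r : R) (q : ℕ), r ∉ IsLocalRing.maximalIdeal R ^ (q + 1) → OrdLe V (algebraMap R (FractionRing R) r) q) ∧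
    ∀ r : R, r ≠ 0 → ∃ q : ℕ, r ∉ IsLocalRing.maximalIdeal R ^ (q + 1) := by
  classical
  set K := FractionRing R with hK
  let V : ValuationSubring K := (ValuationRing.valuation R K).valuationSubring
  have hV : ∀ x : K, x ∈ V ↔ ∃ r : R, algebraMap R K r = x := fun x => ValuationRing.mem_integer_iff R K x
  have hinj : Function.Injective (algebraMap R K) := IsFractionRing.injective R K
  refine ⟨V, fun r => (hV _).2 ⟨r, rfl⟩, fun x hx => (hV x).1 hx, ?_, ?_⟩
  · intro r q hr z hz
    by_contra hcon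
    push Not at hcon
    -- the `z i` come from the maximal ideal
    have hm : ∀ i, i < q + 1 → ∃ m ∈ IsLocalRing.maximalIdeal R, algebraMap R K m = z i := by
      intro i hi
      have h1 := hz i hi
      have h2 : z i ∈ V := (V.valuation_le_one_iff _).1 h1.le
      obtain ⟨m, hm⟩ := (hV _).1 h2
      refine ⟨m, ?_, hm⟩
      rw [IsLocalRing.mem_maximalIdeal, mem_nonunits_iff]
      intro hu
      obtain ⟨u, rfl⟩ := hu
      have h3 : z i * algebraMap R K ((u⁻¹ : Rˣ) : R) = 1 := by
        rw [← hm, ← map_mul, Units.mul_inv, map_one]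
      have h4 : V.valuation (algebraMap R K ((u⁻¹ : Rˣ) : R)) ≤ 1 :=
        (V.valuation_le_one_iff _).2 ((hV _).2 ⟨_, rfl⟩)
      have h5 : V.valuation (z i) * V.valuation (algebraMap R K ((u⁻¹ : Rˣ) : R)) = 1 := by
        rw [← map_mul, h3, map_one]
      have h6 : V.valuation (z i) * V.valuation (algebraMap R K ((u⁻¹ : Rˣ) : R)) < 1 :=
        mul_lt_one_of_lt_of_le h1 h4
      rw [h5] at h6
      exact lt_irrefl _ h6
    have hprod : ∃ m ∈ IsLocalRing.maximalIdeal R ^ (q + 1), algebraMap R K m = ∏ i ∈ Finset.range (q + 1), z i := by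
      choose! m hm1 hm2 using hm
      refine ⟨∏ i ∈ Finset.range (q + 1), m i, ?_, ?_⟩
      · have := Ideal.prod_mem_prod (s := Finset.range (q + 1)) (I := fun _ => IsLocalRing.maximalIdeal R) (x := m)
          (fun i hi => hm1 i (Finset.mem_range.mp hi))
        simpa using this
      · rw [map_prod]
        exact Finset.prod_congr rfl fun i hi => hm2 i (Finset.mem_range.mp hi)
    obtain ⟨m, hm1, hm2⟩ := hprod
    rw [← hm2, V.valuation_le_iff] at hcon
    obtain ⟨⟨a, ha⟩, h7⟩ := hcon
    obtain ⟨s, hs⟩ := (hV a).1 ha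
    apply hr
    have h8 : s * m = r := by
      apply hinj
      rw [map_mul, hs]
      exact h7
    rw [← h8]
    exact Ideal.mul_mem_left _ _ hm1
  · intro r hr
    by_contra hcon
    push Not at hcon
    apply hr
    have h1 : (⨅ i : ℕ, IsLocalRing.maximalIdeal R ^ i) = ⊥ :=
      Ideal.iInf_pow_eq_bot_of_isLocalRing _ Ideal.IsPrime.ne_top'
    have h2 : r ∈ (⨅ i : ℕ, IsLocalRing.maximalIdeal R ^ i) := by
      rw [Ideal.mem_iInf]
      intro i
      exact Ideal.pow_le_pow_right (Nat.le_succ i) (hcon i)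
    rw [h1] at h2
    exact Ideal.mem_bot.mp h2

/-- **DVV** -/
theorem t_DVV : S_DVV := fun R _ _ _ => dvv R

end Run7.h410.SC
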